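import Pool.Agent.Helper15.GS.GoalsD
import Pool.Agent.Helper70.HS.INVK
import Pool.Agent.Helper19.HS.LPR

/-! # GS, packet INVG: regularity and invariance -/

open Complex Metric Set Filter Topology MeasureTheory
open scoped ContDiff ComplexConjugate ComplexOrder Manifold Matrix

namespace Pool.Agent.Helper74.GS

open Pool.Agent.Helper95.Lin Pool.Agent.Helper16.Abund Pool.Agent.Helper92.Orb
  Pool.Agent.Helper10.SP Pool.Agent.Helper95.RK Pool.Agent.Helper57.HS Pool.Agent.Helper15.HS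
  Pool.Agent.Helper45.HS Pool.Agent.Helper70.HS Pool.Agent.Helper70.HS.Invk
  Pool.Agent.Helper15.GS

universe u v

variable {n : ℕ}

theorem mS_posDef {τ : ℝ} (hτ : 0 < τ) {a b : Matrix (Fin n) (Fin n) ℂ} (ha : a.PosDef)
    (hb : b.PosDef) : (a + (τ : ℂ) • b).PosDef := by
  refine ha.add_posSemidef (hb.posSemidef.smul ?_)
  rw [Complex.le_def]
  exact ⟨by simpa using hτ.le, by simp⟩

/-- the algebra of `Y = τ h (Q + τ h)⁻¹` -/
theorem ys_alg {τ : ℝ} (hτ : 0 < τ) {h Q : Matrix (Fin n) (Fin n) ℂ} (hh : h.PosDef)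
    (hQ : Q.PosDef) :
    ((τ : ℂ) • (h * (Q + (τ : ℂ) • h)⁻¹)) * h =
      h * ((τ : ℂ) • (h * (Q + (τ : ℂ) • h)⁻¹))ᴴ ∧
    (((τ : ℂ) • (h * (Q + (τ : ℂ) • h)⁻¹)) * h).PosSemidef ∧
    (h - ((τ : ℂ) • (h * (Q + (τ : ℂ) • h)⁻¹)) * h).PosSemidef := by
  have hm := mS_posDef hτ hQ hh
  set m := Q + (τ : ℂ) • h with hmdef
  have hmi := hm.inv
  have e1 : h.IsHermitian := hh.isHermitian
  have e2 : m⁻¹.IsHermitian := hmi.isHermitian
  have hmu : IsUnit m.det := (posDef_det hm).isUnit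
  have hhu : IsUnit h.det := (posDef_det hh).isUnit
  have hQu : IsUnit Q.det := (posDef_det hQ).isUnit
  have hc : (0 : ℂ) ≤ (τ : ℂ) := by
    rw [Complex.le_def]
    exact ⟨by simpa using hτ.le, by simp⟩
  refine ⟨?_, ?_, ?_⟩
  · rw [Matrix.conjTranspose_smul, Matrix.conjTranspose_mul, e1.eq, e2.eq, Matrix.smul_mul,
      Matrix.mul_smul, Complex.star_def, Complex.conj_ofReal, Matrix.mul_assoc]
  · rw [Matrix.smul_mul]
    refine Matrix.PosSemidef.smul ?_ hc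
    have h3 := hmi.posSemidef.mul_mul_conjTranspose_same h
    rwa [e1.eq] at h3
  · have key : h - ((τ : ℂ) • (h * m⁻¹)) * h = (h⁻¹ + (τ : ℂ) • Q⁻¹)⁻¹ := by
      symm
      refine Matrix.inv_eq_right_inv ?_
      have h4 : h - ((τ : ℂ) • (h * m⁻¹)) * h = h * m⁻¹ * Q := by
        have h5 : h = h * m⁻¹ * m := by
          rw [Matrix.mul_assoc, Matrix.nonsing_inv_mul _ hmu, Matrix.mul_one]
        have h6 : h * m⁻¹ * Q = h * m⁻¹ * m - h * m⁻¹ * ((τ : ℂ) • h) := by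
          rw [← Matrix.mul_sub, hmdef, add_sub_cancel_right]
        rw [h6, ← h5, Matrix.mul_smul, Matrix.smul_mul]
      rw [h4, Matrix.add_mul]
      have h7 : h⁻¹ * (h * m⁻¹ * Q) = m⁻¹ * Q := by
        rw [Matrix.mul_assoc, ← Matrix.mul_assoc, Matrix.nonsing_inv_mul _ hhu, Matrix.one_mul]
      have h8 : (τ : ℂ) • Q⁻¹ * (h * m⁻¹ * Q) = Q⁻¹ * (m - Q) * m⁻¹ * Q := by
        rw [hmdef, add_sub_cancel_left]
        simp only [Matrix.smul_mul, Matrix.mul_smul, Matrix.mul_assoc]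
      rw [h7, h8, Matrix.mul_sub, Matrix.nonsing_inv_mul _ hQu, Matrix.sub_mul, Matrix.sub_mul,
        Matrix.one_mul, Matrix.mul_assoc Q⁻¹ m, Matrix.mul_nonsing_inv _ hmu, Matrix.mul_one,
        Matrix.nonsing_inv_mul _ hQu]
      abel
    rw [key]
    exact ((hh.inv.add_posSemidef (hQ.inv.posSemidef.smul hc)).inv).posSemidef

theorem mS_herT {T : Set (Cn n)} {G : Type u} [Group G] {R : G → Cn n → Cn n → Prop}
    {h Q : Cn n → Matrix (Fin n) (Fin n) ℂ} {τ : ℝ} (hτ : 0 < τ) (hh : HerT T R h)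
    (hQ : HerT T R Q) : HerT T R (mS τ h Q) := by
  refine ⟨fun x hx => mS_posDef hτ (hQ.posDef x hx) (hh.posDef x hx), ?_, ?_⟩
  · have h1 : SmM (fun x => (τ : ℂ) • h x) T := SmM.smul contDiffOn_const hh.smooth
    exact SmM.add hQ.smooth h1
  · intro U σ hσ x hx u v
    have e1 := hQ.inv U σ hσ x hx u v
    have e2 := hh.inv U σ hσ x hx u v
    have e3 : ∀ (y : Cn n) (a b : Cn n), hermi (mS τ h Q y) a b =
        hermi (Q y) a b + (τ : ℂ) * hermi (h y) a b := by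
      intro y a b
      unfold hermi mS
      rw [Finset.mul_sum, ← Finset.sum_add_distrib]
      refine Finset.sum_congr rfl fun i _ => ?_
      rw [Finset.mul_sum, ← Finset.sum_add_distrib]
      refine Finset.sum_congr rfl fun j _ => ?_
      rw [Matrix.add_apply, Matrix.smul_apply, smul_eq_mul]
      ring
    rw [e3, e3, e1, e2]

theorem crvP_eq2 {H : Cn n → Matrix (Fin n) (Fin n) ℂ} {x : Cn n}
    (h : ∀ i j k l, crv H x i j k l = - (cdbM l (Gam H k) x * H x) i j)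
    (X K : Matrix (Fin n) (Fin n) ℂ) :
    crvP H X K x = ∑ k, ∑ l, K l k * (- Matrix.trace (X * (cdbM l (Gam H k) x * H x))) := by
  unfold crvP
  calc ∑ i, ∑ j, ∑ k, ∑ l, X j i * K l k * crv H x i j k l
      = ∑ i, ∑ k, ∑ j, ∑ l, X j i * K l k * crv H x i j k l :=
        Finset.sum_congr rfl fun i _ => Finset.sum_comm
    _ = ∑ k, ∑ i, ∑ j, ∑ l, X j i * K l k * crv H x i j k l := Finset.sum_comm
    _ = ∑ k, ∑ i, ∑ l, ∑ j, X j i * K l k * crv H x i j k l :=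
        Finset.sum_congr rfl fun k _ => Finset.sum_congr rfl fun i _ => Finset.sum_comm
    _ = ∑ k, ∑ l, ∑ i, ∑ j, X j i * K l k * crv H x i j k l :=
        Finset.sum_congr rfl fun k _ => Finset.sum_comm
    _ = _ := by
        refine Finset.sum_congr rfl fun k _ => Finset.sum_congr rfl fun l _ => ?_
        rw [Finset.sum_comm]
        rw [Matrix.trace, ← Finset.sum_neg_distrib, Finset.mul_sum]
        refine Finset.sum_congr rfl fun j _ => ?_
        rw [Matrix.diag_apply, Matrix.mul_apply, ← Finset.sum_neg_distrib, Finset.mul_sum]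
        refine Finset.sum_congr rfl fun i _ => ?_
        rw [h i j k l]
        ring

/-- the product rule for the transformation of `Y = τ h m⁻¹` -/
theorem ys_trans {τ : ℝ} {J h h' m m' : Matrix (Fin n) (Fin n) ℂ} (hJ : J.det ≠ 0)
    (e1 : h = J * h' * Jᴴ) (e2 : m = J * m' * Jᴴ) :
    (τ : ℂ) • (h * m⁻¹) = J * ((τ : ℂ) • (h' * m'⁻¹)) * J⁻¹ := by
  have hJH := isUnit_H hJ
  rw [inv_trans e2, e1]
  rw [Matrix.mul_smul, Matrix.smul_mul]
  congr 1
  calc J * h' * Jᴴ * (Jᴴ⁻¹ * m'⁻¹ * J⁻¹) = J * h' * (Jᴴ * Jᴴ⁻¹) * m'⁻¹ * J⁻¹ := by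
        simp only [Matrix.mul_assoc]
    _ = _ := by
        rw [Matrix.mul_nonsing_inv _ hJH, Matrix.mul_one]
        simp only [Matrix.mul_assoc]

theorem sqd_trans {J Y : Matrix (Fin n) (Fin n) ℂ} (hJ : J.det ≠ 0) :
    Sqd (J * Y * J⁻¹) = J * Sqd Y * J⁻¹ := by
  have hu : IsUnit J.det := isUnit_iff_ne_zero.2 hJ
  have h1 : ∀ A B : Matrix (Fin n) (Fin n) ℂ, J * A * J⁻¹ * (J * B * J⁻¹) = J * (A * B) * J⁻¹ := by
    intro A B
    calc J * A * J⁻¹ * (J * B * J⁻¹) = J * A * (J⁻¹ * J) * B * J⁻¹ := by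
          simp only [Matrix.mul_assoc]
      _ = _ := by rw [Matrix.nonsing_inv_mul _ hu, Matrix.mul_one]; simp only [Matrix.mul_assoc]
  unfold Sqd
  rw [h1, ← Matrix.sub_mul, ← Matrix.mul_sub, h1]

theorem cont_trace {T : Set (Cn n)} {X : Cn n → Matrix (Fin n) (Fin n) ℂ} (hX : SmM X T) :
    ContinuousOn (fun x => Matrix.trace (X x)) T := hX.trace.continuousOn

theorem invg (hWCH : S_WCH) (hARRB : S_ARRB.{u}) (hCSY : S_CSY) (hRHOI : S_RHOI.{u}) :
    S_INVG.{u} := by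
  intro n T G _ R hET h Q τ hτ hh hQ
  have hT : IsOpen T := hET.isOpen
  have hm := mS_herT hτ hh hQ
  have hhs : SmM h T := hh.smooth
  have hQs : SmM Q T := hQ.smooth
  have hms : SmM (mS τ h Q) T := hm.smooth
  have hQi : SmM (fun x => (Q x)⁻¹) T := hQs.inv fun x hx => posDef_det (hQ.posDef x hx)
  have hmi : SmM (fun x => (mS τ h Q x)⁻¹) T := hms.inv fun x hx => posDef_det (hm.posDef x hx)
  have hYs : SmM (YS τ h Q) T := SmM.smul contDiffOn_const (hhs.mul hmi)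
  have hτh : SmM (fun x => (τ : ℂ) • h x) T := SmM.smul contDiffOn_const hhs
  -- the transformation under arrows
  have arr : ∀ γ U σ, LAr R γ U σ → (∀ z ∈ U, (JF σ z).det ≠ 0) ∧ MapsTo σ U T ∧
      (∀ X : Cn n → Matrix (Fin n) (Fin n) ℂ, InvH R X → ∀ z ∈ U,
        X z = JF σ z * X (σ z) * (JF σ z)ᴴ) := by
    intro γ U σ hLA
    have hArr : Arr R U σ := ⟨hLA.1, hLA.2.1, γ, hLA.2.2⟩
    refine ⟨?_, fun z hz => (hET.mem _ _ _ (hLA.2.2 z hz)).2, ?_⟩
    · intro z hz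
      unfold JF
      rw [det_Jt]
      exact ((hARRB T R hET).2.1 γ U σ hLA z hz).1
    · intro X hX z hz
      exact form_mat (X z) (X (σ z)) (fderiv ℂ σ z) (hX U σ hArr z hz)
  refine ⟨hm, hYs, fun x hx => ys_alg hτ (hh.posDef x hx) (hQ.posDef x hx), ?_, ?_, ?_, ?_, ?_⟩
  · -- InvH
    intro U σ hσ x hx a b
    obtain ⟨hU, hd, γ, hγ⟩ := hσ
    obtain ⟨hdet, hmaps, hX⟩ := arr γ U σ ⟨hU, hd, hγ⟩
    have e1 := hX h hh.inv x hx
    have e2 := hX (mS τ h Q) hm.inv x hx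
    have e3 : YS τ h Q x = JF σ x * YS τ h Q (σ x) * (JF σ x)⁻¹ := ys_trans (hdet x hx) e1 e2
    have hu : IsUnit (JF σ x).det := isUnit_iff_ne_zero.2 (hdet x hx)
    have e4 : YS τ h Q x * h x = JF σ x * (YS τ h Q (σ x) * h (σ x)) * (JF σ x)ᴴ := by
      rw [e3, e1]
      calc JF σ x * YS τ h Q (σ x) * (JF σ x)⁻¹ * (JF σ x * h (σ x) * (JF σ x)ᴴ)
          = JF σ x * YS τ h Q (σ x) * ((JF σ x)⁻¹ * JF σ x) * h (σ x) * (JF σ x)ᴴ := by
            simp only [Matrix.mul_assoc]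
        _ = _ := by
            rw [Matrix.nonsing_inv_mul _ hu, Matrix.mul_one]
            simp only [Matrix.mul_assoc]
    rw [Pool.Agent.Helper19.HS.hermi_J]
    beta_reduce
    rw [e4]
    rfl
  · unfold Er1
    refine Complex.continuous_re.comp_continuousOn ?_
    refine continuousOn_finsetSum _ fun k _ => continuousOn_finsetSum _ fun l _ => ?_
    have hA : ∀ k, SmM (Adf h Q k) T := fun k =>
      (gam_smM hT hQs hQ.posDef k).sub (gam_smM hT hhs hh.posDef k)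
    exact (hQi l k).continuousOn.mul
      ((((hA k).mul ((hQs.mul hmi).mul hτh)).mul (hA l).conjTranspose).mul hmi).trace.continuousOn
  · unfold Er2 crvP
    refine continuousOn_const.mul (Complex.continuous_re.comp_continuousOn ?_)
    refine continuousOn_finsetSum _ fun i _ => continuousOn_finsetSum _ fun j _ =>
      continuousOn_finsetSum _ fun k _ => continuousOn_finsetSum _ fun l _ => ?_
    exact ((hmi j i).continuousOn.mul (hQi l k).continuousOn).mul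
      (cont_crv hT hhs hh.posDef i j k l)
  · intro γ x y hxy
    obtain ⟨U, σ, σ', hxU, hUT, hLA, hσx, -, -, -⟩ := (hARRB T R hET).1 γ x y hxy
    obtain ⟨hdet, hmaps, hX⟩ := arr γ U σ hLA
    have hU : IsOpen U := hLA.1
    have hσ : DifferentiableOn ℂ σ U := hLA.2.1
    have hJ := hdet x hxU
    have hJu : IsUnit (JF σ x).det := isUnit_iff_ne_zero.2 hJ
    have hJHu := isUnit_H hJ
    have hyT : y ∈ T := (hET.mem _ _ _ hxy).2
    have hxT : x ∈ T := hUT hxU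
    have ih := hX h hh.inv
    have iQ := hX Q hQ.inv
    have im := hX (mS τ h Q) hm.inv
    have ir := hX (rho h) (hRHOI T R h hET hh).2.1
    have ihx := ih x hxU
    have iQx := iQ x hxU
    have imx := im x hxU
    have irx := ir x hxU
    rw [hσx] at ihx iQx imx irx
    have iY : YS τ h Q x = JF σ x * YS τ h Q y * (JF σ x)⁻¹ := ys_trans hJ ihx imx
    have hK := pull_inv hJ iQx
    have hmx := inv_trans imx
    have hinvH : ((JF σ x)⁻¹)ᴴ = ((JF σ x)ᴴ)⁻¹ := Matrix.conjTranspose_nonsing_inv _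
    refine ⟨?_, ?_, ?_, ?_, ?_⟩
    · unfold Er1
      congr 1
      symm
      refine sum_trans hK fun k l => ?_
      have hA : ∀ k, Adf h Q k x = JF σ x * (∑ p, JF σ x k p • Adf h Q p y) * (JF σ x)⁻¹ := by
        intro k
        have g1 := gam_trans hWCH hT hU hσ hmaps hdet hhs hh.posDef ih hxU k
        have g2 := gam_trans hWCH hT hU hσ hmaps hdet hQs hQ.posDef iQ hxU k
        rw [hσx] at g1 g2
        unfold Adf
        rw [g1, g2]
        simp only [smul_sub, Finset.sum_sub_distrib, Matrix.mul_sub, Matrix.sub_mul]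
        abel
      have hpar : Q x * (mS τ h Q x)⁻¹ * ((τ : ℂ) • h x) =
          JF σ x * (Q y * (mS τ h Q y)⁻¹ * ((τ : ℂ) • h y)) * (JF σ x)ᴴ := by
        rw [hmx, iQx, ihx]
        calc JF σ x * Q y * (JF σ x)ᴴ * ((JF σ x)ᴴ⁻¹ * (mS τ h Q y)⁻¹ * (JF σ x)⁻¹) *
              ((τ : ℂ) • (JF σ x * h y * (JF σ x)ᴴ))
            = (τ : ℂ) • (JF σ x * Q y * ((JF σ x)ᴴ * (JF σ x)ᴴ⁻¹) * (mS τ h Q y)⁻¹ *
              ((JF σ x)⁻¹ * JF σ x) * h y * (JF σ x)ᴴ) := by
              simp only [Matrix.mul_smul, Matrix.mul_assoc]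
          _ = _ := by
              rw [Matrix.mul_nonsing_inv _ hJHu, Matrix.nonsing_inv_mul _ hJu]
              simp only [Matrix.mul_one, Matrix.mul_smul, Matrix.smul_mul, Matrix.mul_assoc]
      rw [hA k, hA l, hpar, hmx, Matrix.conjTranspose_mul, Matrix.conjTranspose_mul, hinvH]
      set Bk := ∑ p, JF σ x k p • Adf h Q p y with hBk
      set Bl := ∑ p, JF σ x l p • Adf h Q p y with hBl
      set Z := Q y * (mS τ h Q y)⁻¹ * ((τ : ℂ) • h y) with hZ
      have h2 : JF σ x * Bk * (JF σ x)⁻¹ * (JF σ x * Z * (JF σ x)ᴴ) *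
          ((JF σ x)ᴴ⁻¹ * (Blᴴ * (JF σ x)ᴴ)) * ((JF σ x)ᴴ⁻¹ * (mS τ h Q y)⁻¹ * (JF σ x)⁻¹) =
          JF σ x * (Bk * Z * Blᴴ * (mS τ h Q y)⁻¹) * (JF σ x)⁻¹ := by
        calc _ = JF σ x * Bk * ((JF σ x)⁻¹ * JF σ x) * Z * ((JF σ x)ᴴ * (JF σ x)ᴴ⁻¹) * Blᴴ *
              ((JF σ x)ᴴ * (JF σ x)ᴴ⁻¹) * (mS τ h Q y)⁻¹ * (JF σ x)⁻¹ := by
              simp only [Matrix.mul_assoc]
          _ = _ := by
              rw [Matrix.mul_nonsing_inv _ hJHu, Matrix.nonsing_inv_mul _ hJu]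
              simp only [Matrix.mul_one, Matrix.mul_assoc]
      rw [h2, (conj_arrow hJ _).1, hBk, hBl, Matrix.sum_mul, Matrix.sum_mul, Matrix.sum_mul,
        Matrix.trace_sum]
      refine Finset.sum_congr rfl fun p _ => ?_
      rw [Matrix.conjTranspose_sum, Matrix.mul_sum, Matrix.sum_mul, Matrix.trace_sum]
      refine Finset.sum_congr rfl fun q _ => ?_
      rw [Matrix.conjTranspose_smul, Matrix.smul_mul, Matrix.smul_mul, Matrix.mul_smul,
        Matrix.smul_mul, Matrix.trace_smul, Matrix.smul_mul, Matrix.trace_smul,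
        smul_eq_mul, smul_eq_mul, Complex.star_def]
      ring
    · unfold Er2
      congr 2
      rw [crvP_eq2 (fun i j k l => (hCSY T hT h hh.posDef hh.smooth y hyT).1 i j k l),
        crvP_eq2 (fun i j k l => (hCSY T hT h hh.posDef hh.smooth x hxT).1 i j k l)]
      symm
      refine sum_trans hK fun k l => ?_
      have h1 := crv_trans hWCH hT hU hσ hmaps hdet hhs hh.posDef ih hxU k l
      rw [hσx] at h1
      rw [h1, hmx]
      have h2 : Matrix.trace ((JF σ x)ᴴ⁻¹ * (mS τ h Q y)⁻¹ * (JF σ x)⁻¹ *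
          (JF σ x * (∑ p, ∑ q, (JF σ x k p * conj (JF σ x l q)) •
            (cdbM q (Gam h p) y * h y)) * (JF σ x)ᴴ)) =
          Matrix.trace ((mS τ h Q y)⁻¹ * (∑ p, ∑ q, (JF σ x k p * conj (JF σ x l q)) •
            (cdbM q (Gam h p) y * h y))) := by
        calc _ = Matrix.trace ((JF σ x)ᴴ⁻¹ * ((mS τ h Q y)⁻¹ * ((JF σ x)⁻¹ * JF σ x) *
              (∑ p, ∑ q, (JF σ x k p * conj (JF σ x l q)) •
              (cdbM q (Gam h p) y * h y)) * (JF σ x)ᴴ)) := by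
              simp only [Matrix.mul_assoc]
          _ = Matrix.trace ((mS τ h Q y)⁻¹ * (∑ p, ∑ q, (JF σ x k p * conj (JF σ x l q)) •
              (cdbM q (Gam h p) y * h y)) * ((JF σ x)ᴴ * (JF σ x)ᴴ⁻¹)) := by
              rw [Matrix.trace_mul_comm, Matrix.nonsing_inv_mul _ hJu, Matrix.mul_one]
              simp only [Matrix.mul_assoc]
          _ = _ := by rw [Matrix.mul_nonsing_inv _ hJHu, Matrix.mul_one]
      rw [h2, Matrix.mul_sum, Matrix.trace_sum, ← Finset.sum_neg_distrib]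
      refine Finset.sum_congr rfl fun p _ => ?_
      rw [Matrix.mul_sum, Matrix.trace_sum, ← Finset.sum_neg_distrib]
      refine Finset.sum_congr rfl fun q _ => ?_
      rw [Matrix.mul_smul, Matrix.trace_smul, smul_eq_mul]
      ring
    · rw [iY, (conj_arrow hJ _).1]
    · rw [iY, sqd_trans hJ, (conj_arrow hJ _).1]
    · have h3 : rho h x * (h x)⁻¹ * YS τ h Q x =
          JF σ x * (rho h y * (h y)⁻¹ * YS τ h Q y) * (JF σ x)⁻¹ := by
        rw [iY, irx, inv_trans ihx]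
        calc JF σ x * rho h y * (JF σ x)ᴴ * ((JF σ x)ᴴ⁻¹ * (h y)⁻¹ * (JF σ x)⁻¹) *
              (JF σ x * YS τ h Q y * (JF σ x)⁻¹)
            = JF σ x * rho h y * ((JF σ x)ᴴ * (JF σ x)ᴴ⁻¹) * (h y)⁻¹ * ((JF σ x)⁻¹ * JF σ x) *
              YS τ h Q y * (JF σ x)⁻¹ := by simp only [Matrix.mul_assoc]
          _ = _ := by
              rw [Matrix.mul_nonsing_inv _ hJHu, Matrix.nonsing_inv_mul _ hJu]
              simp only [Matrix.mul_one, Matrix.mul_assoc]
      rw [h3, (conj_arrow hJ _).1]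
  · exact ((hRHOI T R Q hET hQ).2.2.2.2 (mS τ h Q) hm).1

end Pool.Agent.Helper74.GS
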